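import Pool.Agent.R935.Phylo.Count

namespace Pool.Agent.R935.Phylo
open Finset

section
variable (m : ℕ) (hm : 10 ≤ m)

/-- the natural caterpillar. -/
abbrev T0 : PhyloTree (m + 2) := cat m (by omega) 1
/-- the caterpillar with leaves `2` and `m+1` exchanged. -/
abbrev F0 : PhyloTree (m + 2) := cat m (by omega) (tau m hm)

theorem v1 : ((1 : Fin (m + 2)) : ℕ) = 1 := by simp

theorem ne01 : (0 : Fin (m + 2)) ≠ 1 := by
  intro h
  have := Fin.ext_iff.1 h
  rw [v1] at this
  simp at this

open Classical in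
noncomputable def Cf (t : ℕ) : Finset (Finset (Fin (m + 2)) × Finset (Fin (m + 2))) :=
  ((powersetCard t ((U0 m hm).disjSum (U0 m hm))).filter
    (fun X => Sparse m X ∧ X.toRight.Nonempty)).image
    (fun X => (X.toLeft ∪ {aa m hm, bb m}, X.toRight))

open Classical in
noncomputable def Cg (k : ℕ) : Finset (Finset (Fin (m + 2)) × Finset (Fin (m + 2))) :=
  ((powersetCard (k - 2) (univ \ {0, 1})).filter
    (fun S => ¬ ({aa m hm, bb m} ⊆ S))).image (fun S => (S, {1}))

open Classical in
noncomputable def Ct (k : ℕ) : Finset (Finset (Fin (m + 2)) × Finset (Fin (m + 2))) :=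
  (powersetCard (k - 1) univ).image (fun S => (S, ∅))

theorem card_Cf (t : ℕ) :
    (2 * m).choose t ≤ #(Cf m hm t) + m.choose t +
      18 * (2 * m - 1).choose (t - 1) + (12 * m) * (2 * m - 2).choose (t - 2) := by
  classical
  have h1 := sparse_lower m hm t
  have h2 : #(Cf m hm t) = #((powersetCard t ((U0 m hm).disjSum (U0 m hm))).filter
      (fun X => Sparse m X ∧ X.toRight.Nonempty)) := by
    unfold Cf
    apply card_image_of_injOn
    intro X hX Y hY hXY
    simp only [coe_filter, mem_powersetCard, Set.mem_ofPred_eq] at hX hY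
    simp only [Prod.mk.injEq] at hXY
    have key : ∀ Z : Finset (Fin (m + 2) ⊕ Fin (m + 2)), Z ⊆ (U0 m hm).disjSum (U0 m hm) →
        (Z.toLeft ∪ {aa m hm, bb m}) \ {aa m hm, bb m} = Z.toLeft := by
      intro Z hZ
      rw [union_sdiff_right, Finset.sdiff_eq_self_iff_disjoint, Finset.disjoint_left]
      intro x hx hx'
      rw [mem_toLeft] at hx
      have := hZ hx
      rw [inl_mem_disjSum] at this
      exact (mem_sdiff.1 this).2 hx'
    rw [← toLeft_disjSum_toRight (u := X), ← toLeft_disjSum_toRight (u := Y), ← key X hX.1.1,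
      ← key Y hY.1.1, hXY.1, hXY.2]
  have h3 : #((powersetCard t ((U0 m hm).disjSum (U0 m hm))).filter (Sparse m)) ≤
      #((powersetCard t ((U0 m hm).disjSum (U0 m hm))).filter
        (fun X => Sparse m X ∧ X.toRight.Nonempty)) + m.choose t := by
    have h4 : #((powersetCard t ((U0 m hm).disjSum (U0 m hm))).filter
        (fun X => X.toRight = ∅)) ≤ m.choose t := by
      have : m.choose t = #(powersetCard t (U0 m hm)) := by
        rw [card_powersetCard, card_U0]
      rw [this]
      apply card_le_card_of_injOn (fun X => X.toLeft)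
      · intro X hX
        simp only [coe_filter, mem_powersetCard, Set.mem_ofPred_eq] at hX
        rw [mem_coe, mem_powersetCard]
        constructor
        · intro x hx
          rw [mem_toLeft] at hx
          have := hX.1.1 hx
          rwa [inl_mem_disjSum] at this
        · have h5 := card_toLeft_add_card_toRight (u := X)
          rw [hX.2, card_empty, hX.1.2] at h5
          simpa using h5
      · intro X hX Y hY hXY
        simp only [coe_filter, mem_powersetCard, Set.mem_ofPred_eq] at hX hY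
        have hXY' : X.toLeft = Y.toLeft := hXY
        rw [← toLeft_disjSum_toRight (u := X), ← toLeft_disjSum_toRight (u := Y), hXY', hX.2,
          hY.2]
    refine (card_le_card ?_).trans ((card_union_le _ _).trans (add_le_add le_rfl h4))
    intro X hX
    rw [mem_filter] at hX
    rw [mem_union, mem_filter, mem_filter]
    by_cases h5 : X.toRight = ∅
    · exact Or.inr ⟨hX.1, h5⟩
    · exact Or.inl ⟨hX.1, hX.2, nonempty_iff_ne_empty.2 h5⟩
  omega

theorem card_Cg (k : ℕ) :
    m.choose (k - 2) ≤ #(Cg m hm k) + (m - 2).choose (k - 4) := by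
  classical
  have h1 : #(Cg m hm k) = #((powersetCard (k - 2) (univ \ {0, 1} : Finset (Fin (m + 2)))).filter
      (fun S => ¬ ({aa m hm, bb m} ⊆ S))) := by
    unfold Cg
    apply card_image_of_injOn
    intro X _ Y _ hXY
    simp only [Prod.mk.injEq, and_true] at hXY
    exact hXY
  have h2 : #(univ \ {0, 1} : Finset (Fin (m + 2))) = m := by
    rw [card_sdiff_of_subset (subset_univ _), card_univ, Fintype.card_fin, card_pair (ne01 m)]
    rfl
  have h3 := card_supersets (univ \ {0, 1} : Finset (Fin (m + 2))) {aa m hm, bb m} (k - 2)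
  have h4 := card_filter_add_card_filter_not
    (s := powersetCard (k - 2) (univ \ {0, 1} : Finset (Fin (m + 2))))
    (fun S => ({aa m hm, bb m} : Finset (Fin (m + 2))) ⊆ S)
  rw [card_powersetCard, h2] at h4
  rw [h2, card_pair (aa_ne_bb m hm)] at h3
  rw [h1]
  have h5 : k - 2 - 2 = k - 4 := by omega
  rw [h5] at h3
  omega

theorem card_Ct (k : ℕ) : (m + 2).choose (k - 1) = #(Ct m k) := by
  classical
  unfold Ct
  rw [card_image_of_injOn, card_powersetCard, card_univ, Fintype.card_fin]
  intro X _ Y _ hXY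
  simp only [Prod.mk.injEq, and_true] at hXY
  exact hXY

/-- the code of a partition in `Cf`, `Cg`, `Ct` is good. -/
theorem Cf_spec {t : ℕ} {c : Finset (Fin (m + 2)) × Finset (Fin (m + 2))}
    (hc : c ∈ Cf m hm t) : Good c.1 c.2 ∧ #c.1 + #c.2 = t + 2 ∧ c.2.Nonempty ∧
      {aa m hm, bb m} ⊆ c.1 := by
  classical
  unfold Cf at hc
  rw [mem_image] at hc
  obtain ⟨X, hX, rfl⟩ := hc
  rw [mem_filter, mem_powersetCard] at hX
  refine ⟨good_of_sparse m hm X hX.2.1, ?_, hX.2.2, subset_union_right⟩
  simp only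
  rw [card_union_of_disjoint, card_pair (aa_ne_bb m hm)]
  · have h5 := card_toLeft_add_card_toRight (u := X)
    rw [hX.1.2] at h5
    omega
  · rw [Finset.disjoint_left]
    intro x hx hx'
    rw [mem_toLeft] at hx
    have := hX.1.1 hx
    rw [inl_mem_disjSum] at this
    exact (mem_sdiff.1 this).2 hx'

theorem exists_ne_not_mem {n : ℕ} (S : Finset (Fin n)) (h : #S + 2 ≤ n) (x : Fin n) :
    ∃ y, y ≠ x ∧ y ∉ S := by
  have h1 : #(insert x S) < #(univ : Finset (Fin n)) := by
    rw [card_univ, Fintype.card_fin]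
    have := card_insert_le x S
    omega
  obtain ⟨y, _, hy⟩ := exists_mem_notMem_of_card_lt_card h1
  rw [mem_insert, not_or] at hy
  exact ⟨y, hy.1, hy.2⟩

theorem Ct_spec {k : ℕ} (hk : 1 ≤ k) (hkm : k ≤ m)
    {c : Finset (Fin (m + 2)) × Finset (Fin (m + 2))}
    (hc : c ∈ Ct m k) : Good c.1 c.2 ∧ #c.1 + #c.2 + 1 = k ∧ c.2 = ∅ := by
  classical
  unfold Ct at hc
  rw [mem_image] at hc
  obtain ⟨S, hS, rfl⟩ := hc
  rw [mem_powersetCard] at hS
  refine ⟨⟨?_, by simp⟩, by simp only [card_empty]; omega, rfl⟩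
  intro x hx
  obtain ⟨y, hy1, hy2⟩ := exists_ne_not_mem S (by omega) x
  exact ⟨y, hy1, hy2, by simp⟩

theorem Cg_spec {k : ℕ} (hk : 2 ≤ k) (hkm : k ≤ m)
    {c : Finset (Fin (m + 2)) × Finset (Fin (m + 2))}
    (hc : c ∈ Cg m hm k) : Good c.1 c.2 ∧ #c.1 + #c.2 + 1 = k ∧ c.2 = {1} ∧
      ¬ ({aa m hm, bb m} ⊆ c.1) := by
  classical
  unfold Cg at hc
  rw [mem_image] at hc
  obtain ⟨S, hS, rfl⟩ := hc
  rw [mem_filter, mem_powersetCard] at hS
  obtain ⟨⟨hS1, hS2⟩, hS3⟩ := hS
  have hw1 := v1 m
  have h0 : (0 : Fin (m + 2)) ∉ S := by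
    intro h
    have := hS1 h
    simp at this
  have h1 : (1 : Fin (m + 2)) ∉ S := by
    intro h
    have := hS1 h
    simp at this
  -- two elements outside `{0,1} ∪ S`
  have hcard : #(insert 0 (insert 1 S)) ≤ k := by
    have h3 := card_insert_le 0 (insert 1 S)
    have h4 := card_insert_le 1 S
    omega
  refine ⟨⟨?_, ?_⟩, by simp only [card_singleton]; omega, rfl, hS3⟩
  · intro x hx
    by_cases hx1 : (x : ℕ) < 2
    · by_cases hx0 : (x : ℕ) = 0
      · refine ⟨1, ?_, h1, ?_⟩
        · intro h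
          have := Fin.ext_iff.1 h
          omega
        · intro e he
          rw [mem_singleton] at he
          subst he
          rw [Fin.lt_def, Fin.lt_def]
          omega
      · refine ⟨0, ?_, h0, ?_⟩
        · intro h
          have := Fin.ext_iff.1 h
          simp at this
          omega
        · intro e he
          rw [mem_singleton] at he
          subst he
          rw [Fin.lt_def, Fin.lt_def]
          simp only [Fin.val_zero]
          omega
    · obtain ⟨y, hy1, hy2⟩ := exists_ne_not_mem (insert 0 (insert 1 S)) (by omega) x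
      rw [mem_insert, mem_insert, not_or, not_or] at hy2
      obtain ⟨hy3, hy4, hy5⟩ := hy2
      refine ⟨y, hy1, hy5, ?_⟩
      intro e he
      rw [mem_singleton] at he
      subst he
      rw [Fin.lt_def, Fin.lt_def, hw1]
      have h5 : (y : ℕ) ≠ 0 := fun h => hy3 (Fin.ext h)
      have h6 : (y : ℕ) ≠ 1 := fun h => hy4 (Fin.ext (by rw [hw1]; exact h))
      omega
  · intro e he
    simp only [mem_singleton] at he
    subst he
    refine ⟨h1, ?_⟩
    obtain ⟨y, hy1, hy2⟩ := exists_ne_not_mem (insert 0 (insert 1 S)) (by omega) 1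
    rw [mem_insert, mem_insert, not_or, not_or] at hy2
    obtain ⟨hy3, hy4, hy5⟩ := hy2
    refine ⟨y, ?_, hy5⟩
    rw [Fin.lt_def, hw1]
    have h5 : (y : ℕ) ≠ 0 := fun h => hy3 (Fin.ext h)
    have h6 : (y : ℕ) ≠ 1 := fun h => hy4 (Fin.ext (by rw [hw1]; exact h))
    omega

theorem R_injOn (C : Finset (Finset (Fin (m + 2)) × Finset (Fin (m + 2))))
    (hC : ∀ c ∈ C, Good c.1 c.2) : Set.InjOn (fun c : Finset (Fin (m + 2)) ×
      Finset (Fin (m + 2)) => R c.1 c.2) (C : Set _) := by
  intro c hc d hd hcd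
  have hcd' : R c.1 c.2 = R d.1 d.2 := hcd
  have h1 := sing_R (hC c hc)
  have h2 := sing_R (hC d hd)
  have h3 := ends_R (hC c hc)
  have h4 := ends_R (hC d hd)
  rw [hcd'] at h1 h3
  exact Prod.ext (h1.symm.trans h2) (h3.symm.trans h4)

theorem card_R {S E : Finset (Fin (m + 2))} (h : Good S E) (hS : ∃ x, x ∉ S) :
    Nat.card (Quotient (R S E)) = #S + #E + 1 := by
  have := card_quot' (R S E) (by rwa [sing_R h])
  rwa [sing_R h, ends_R h] at this

theorem conv_tau_of_fixed {S E : Finset (Fin (m + 2))} (h : {aa m hm, bb m} ⊆ S) :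
    Conv (tau m hm) (R S E) := by
  apply conv_R_of_fixed
  intro x hx
  unfold tau
  apply Equiv.swap_apply_of_ne_of_ne
  · rintro rfl
    exact hx (h (by simp))
  · rintro rfl
    exact hx (h (by simp))

theorem finite_setoid (n : ℕ) (s : Set (Setoid (Fin n))) : s.Finite := by
  have : Finite (Setoid (Fin n)) := by
    apply Finite.of_injective (fun P : Setoid (Fin n) => fun i j => P i j)
    intro P Q h
    apply Setoid.ext
    intro i j
    exact Iff.of_eq (congrFun (congrFun h i) j)
  exact Set.toFinite s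

theorem lowerNT (k : ℕ) (hk : 4 ≤ k) (hkm : k ≤ m) :
    #(Cf m hm (k - 3)) + #(Cg m hm k) ≤ commonNT (T0 m hm) (F0 m hm) k := by
  classical
  have hdisj : Disjoint (Cf m hm (k - 3)) (Cg m hm k) := by
    rw [Finset.disjoint_left]
    intro c h1 h2
    exact (Cg_spec m hm (by omega) hkm h2).2.2.2 (Cf_spec m hm h1).2.2.2
  rw [← card_union_of_disjoint hdisj, ← Set.ncard_coe_finset]
  apply Set.ncard_le_ncard_of_injOn (fun c => R c.1 c.2) (ht := finite_setoid _ _)
  · intro c hc
    rw [mem_coe, mem_union] at hc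
    rcases hc with hc | hc
    · obtain ⟨h1, h2, h3, h4⟩ := Cf_spec m hm hc
      refine ⟨(induces_iff _ _ _).2 (conv_R_of_fixed 1 (fun _ _ => rfl)),
        (induces_iff _ _ _).2 (conv_tau_of_fixed m hm h4), ?_, nonTrivial_R h1 h3⟩
      obtain ⟨e, he⟩ := h3
      rw [card_R m h1 ⟨e, (h1.2 e he).1⟩]
      omega
    · obtain ⟨h1, h2, h3, h4⟩ := Cg_spec m hm (by omega) hkm hc
      have h5 : c.2.Nonempty := by rw [h3]; simp
      refine ⟨(induces_iff _ _ _).2 (conv_R_of_fixed 1 (fun _ _ => rfl)),
        (induces_iff _ _ _).2 ?_, ?_, nonTrivial_R h1 h5⟩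
      · rw [h3]
        exact conv_tau_one hm c.1
      · obtain ⟨e, he⟩ := h5
        rw [card_R m h1 ⟨e, (h1.2 e he).1⟩]
        omega
  · apply R_injOn
    intro c hc
    rw [mem_union] at hc
    rcases hc with hc | hc
    · exact (Cf_spec m hm hc).1
    · exact (Cg_spec m hm (by omega) hkm hc).1

theorem lowerAll (k : ℕ) (hk : 4 ≤ k) (hkm : k ≤ m) :
    #(Cf m hm (k - 3)) + #(Ct m k) ≤ common (T0 m hm) (F0 m hm) k := by
  classical
  have hdisj : Disjoint (Cf m hm (k - 3)) (Ct m k) := by
    rw [Finset.disjoint_left]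
    intro c h1 h2
    have h3 := (Cf_spec m hm h1).2.2.1
    rw [(Ct_spec m (by omega) hkm h2).2.2] at h3
    simp at h3
  rw [← card_union_of_disjoint hdisj, ← Set.ncard_coe_finset]
  apply Set.ncard_le_ncard_of_injOn (fun c => R c.1 c.2) (ht := finite_setoid _ _)
  · intro c hc
    rw [mem_coe, mem_union] at hc
    rcases hc with hc | hc
    · obtain ⟨h1, h2, h3, h4⟩ := Cf_spec m hm hc
      refine ⟨(induces_iff _ _ _).2 (conv_R_of_fixed 1 (fun _ _ => rfl)),
        (induces_iff _ _ _).2 (conv_tau_of_fixed m hm h4), ?_⟩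
      obtain ⟨e, he⟩ := h3
      rw [card_R m h1 ⟨e, (h1.2 e he).1⟩]
      omega
    · obtain ⟨h1, h2, h3⟩ := Ct_spec m (by omega) hkm hc
      refine ⟨(induces_iff _ _ _).2 (conv_R_of_fixed 1 (fun _ _ => rfl)),
        (induces_iff _ _ _).2 ?_, ?_⟩
      · rw [h3]
        exact conv_R_empty _
      · obtain ⟨y, _, hy⟩ := exists_ne_not_mem c.1 (by omega) 0
        rw [card_R m h1 ⟨y, hy⟩]
        omega
  · apply R_injOn
    intro c hc
    rw [mem_union] at hc
    rcases hc with hc | hc
    · exact (Cf_spec m hm hc).1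
    · exact (Ct_spec m (by omega) hkm hc).1

open Classical in
noncomputable def Af (t : ℕ) : Finset (Finset (Fin (m + 2)) × Finset (Fin (m + 2))) :=
  (powersetCard t ((U0 m hm).disjSum (U0 m hm))).image
    (fun X => (X.toLeft ∪ {aa m hm, bb m}, X.toRight))

open Classical in
noncomputable def Ag (k : ℕ) : Finset (Finset (Fin (m + 2)) × Finset (Fin (m + 2))) :=
  (powersetCard (k - 2) (univ \ {0, 1})).image (fun S => (S, {1}))

theorem card_Af (t : ℕ) : #(Af m hm t) ≤ (2 * m).choose t := by
  classical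
  unfold Af
  refine card_image_le.trans ?_
  rw [card_powersetCard, card_disjSum, card_U0, two_mul]

theorem card_Ag (k : ℕ) : #(Ag m k) ≤ m.choose (k - 2) := by
  classical
  unfold Ag
  refine card_image_le.trans ?_
  rw [card_powersetCard, card_sdiff_of_subset (subset_univ _), card_univ, Fintype.card_fin,
    card_pair (ne01 m)]
  exact le_rfl

theorem mem_Af_or_Ag {k : ℕ} (hkm : k ≤ m) (P : Setoid (Fin (m + 2)))
    (h1 : Conv 1 P) (h2 : Conv (tau m hm) P) (hN : NonTrivial P)
    (hcard : Nat.card (Quotient P) = k) :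
    (sing P, ends P) ∈ Af m hm (k - 3) ∪ Ag m k := by
  classical
  have hcard' := card_quot' P (exists_not_sing P (by omega))
  rw [mem_union]
  rcases classify hm P h1 h2 hN with ⟨ha, hb⟩ | ⟨h0, h1', he⟩
  · left
    have hab : ({aa m hm, bb m} : Finset (Fin (m + 2))) ⊆ sing P := by
      intro x hx
      rw [mem_insert, mem_singleton] at hx
      rcases hx with rfl | rfl
      · exact ha
      · exact hb
    unfold Af
    rw [mem_image]
    refine ⟨(sing P \ {aa m hm, bb m}).disjSum (ends P), ?_, ?_⟩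
    · rw [mem_powersetCard]
      constructor
      · intro x hx
        rcases x with x | x
        · rw [inl_mem_disjSum] at hx ⊢
          unfold U0
          rw [mem_sdiff] at hx ⊢
          exact ⟨mem_univ _, hx.2⟩
        · rw [inr_mem_disjSum] at hx ⊢
          unfold U0
          rw [mem_sdiff]
          exact ⟨mem_univ _, fun h => (mem_ends.1 hx).1 (hab h)⟩
      · rw [card_disjSum, card_sdiff_of_subset hab, card_pair (aa_ne_bb m hm)]
        have h5 := card_le_card hab
        rw [card_pair (aa_ne_bb m hm)] at h5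
        omega
    · rw [toLeft_disjSum, toRight_disjSum, sdiff_union_of_subset hab]
  · right
    unfold Ag
    rw [mem_image]
    refine ⟨sing P, ?_, by rw [he]⟩
    rw [mem_powersetCard]
    constructor
    · intro x hx
      rw [mem_sdiff, mem_insert, mem_singleton]
      refine ⟨mem_univ _, ?_⟩
      rintro (rfl | rfl)
      · exact h0 hx
      · exact h1' hx
    · rw [he, card_singleton] at hcard'
      omega

theorem code_injOn (s : Set (Setoid (Fin (m + 2)))) (hs : ∀ P ∈ s, Conv 1 P) :
    Set.InjOn (fun P => (sing P, ends P)) s := by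
  intro P hP Q hQ hPQ
  simp only [Prod.mk.injEq] at hPQ
  rw [recover P (hs P hP), recover Q (hs Q hQ), hPQ.1, hPQ.2]

theorem upperNT (k : ℕ) (hkm : k ≤ m) :
    commonNT (T0 m hm) (F0 m hm) k ≤ (2 * m).choose (k - 3) + m.choose (k - 2) := by
  classical
  refine le_trans ?_ (add_le_add (card_Af m hm (k - 3)) (card_Ag m k))
  refine le_trans ?_ (card_union_le _ _)
  rw [← Set.ncard_coe_finset]
  apply Set.ncard_le_ncard_of_injOn (fun P => (sing P, ends P))
  · rintro P ⟨h1, h2, h3, h4⟩
    exact mem_Af_or_Ag m hm hkm P ((induces_iff _ _ _).1 h1) ((induces_iff _ _ _).1 h2) h4 h3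
  · apply code_injOn
    rintro P ⟨h1, -⟩
    exact (induces_iff _ _ _).1 h1

theorem upperAll (k : ℕ) (hkm : k ≤ m) :
    common (T0 m hm) (F0 m hm) k ≤
      (m + 2).choose (k - 1) + ((2 * m).choose (k - 3) + m.choose (k - 2)) := by
  classical
  refine le_trans ?_ (add_le_add (card_Ct m k).ge
    (add_le_add (card_Af m hm (k - 3)) (card_Ag m k)))
  refine le_trans ?_ (add_le_add le_rfl (card_union_le _ _))
  refine le_trans ?_ (card_union_le _ _)
  rw [← Set.ncard_coe_finset]
  apply Set.ncard_le_ncard_of_injOn (fun P => (sing P, ends P))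
  · rintro P ⟨h1, h2, h3⟩
    rw [mem_coe, mem_union]
    by_cases h4 : NonTrivial P
    · exact Or.inr (mem_Af_or_Ag m hm hkm P ((induces_iff _ _ _).1 h1)
        ((induces_iff _ _ _).1 h2) h4 h3)
    · left
      have he := ends_eq_empty h4
      have hcard' := card_quot' P (exists_not_sing P (by omega))
      unfold Ct
      rw [mem_image]
      refine ⟨sing P, ?_, by rw [he]⟩
      rw [mem_powersetCard]
      refine ⟨subset_univ _, ?_⟩
      rw [he, card_empty] at hcard'
      omega
  · apply code_injOn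
    rintro P ⟨h1, -⟩
    exact (induces_iff _ _ _).1 h1

end

end Pool.Agent.R935.Phylo
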