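import Pool.Agent.R935.Phylo.Defs

namespace Pool.Agent.R935.Phylo

/-- spine vertex to which position `t` is attached. -/
def att (m : ℕ) (t : ℕ) : ℕ := min (t - 1) (m - 1)

abbrev CV (m : ℕ) := Fin (m + 2) ⊕ Fin m

def catAdj (m : ℕ) (σ : Equiv.Perm (Fin (m + 2))) : CV m → CV m → Prop
  | .inl l, .inr s => att m (σ l) = s
  | .inr s, .inl l => att m (σ l) = s
  | .inr s, .inr t => (s : ℕ) + 1 = t ∨ (t : ℕ) + 1 = s
  | .inl _, .inl _ => False

def catG (m : ℕ) (σ : Equiv.Perm (Fin (m + 2))) : SimpleGraph (CV m) where
  Adj := catAdj m σ
  symm := ⟨by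
    rintro (a | a) (b | b) h
    · exact h
    · exact h
    · exact h
    · exact Or.symm h⟩
  loopless := ⟨by
    rintro (a | a) h
    · exact h
    · simp only [catAdj] at h; omega⟩

/-- position on the spine. -/
def pos (m : ℕ) (σ : Equiv.Perm (Fin (m + 2))) : CV m → ℕ
  | .inl l => att m (σ l)
  | .inr s => s

/-- an invariant of adjacency is an invariant of reachability. -/
theorem reach_inv {V : Type*} {H : SimpleGraph V} {f : V → Prop}
    (hf : ∀ v w, H.Adj v w → f v → f w) {a b : V} (h : H.Reachable a b) (ha : f a) : f b := by
  obtain ⟨w⟩ := h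
  induction w with
  | nil => exact ha
  | cons hadj _ ih => exact ih (hf _ _ hadj ha)

theorem reach_spine {m : ℕ} {H : SimpleGraph (CV m)} (d : ℕ) :
    ∀ (a b : Fin m), (b : ℕ) = a + d →
    (∀ s t : Fin m, (s : ℕ) + 1 = t → (a : ℕ) ≤ s → (t : ℕ) ≤ b → H.Adj (.inr s) (.inr t)) →
    H.Reachable (.inr a) (.inr b) := by
  induction d with
  | zero =>
    intro a b hab _
    have : a = b := by ext; omega
    subst this
    exact SimpleGraph.Reachable.refl _
  | succ d ih =>
    intro a b hab h
    have hlt : (a : ℕ) + d < m := by have := b.2; omega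
    have h1 := ih a ⟨a + d, hlt⟩ rfl (by
      intro s t hst has htb
      exact h s t hst has (by simp only at htb; omega))
    have h2 := h ⟨a + d, hlt⟩ b (by simp only; omega) (by simp only; omega) le_rfl
    exact h1.trans h2.reachable

theorem catG_connected {m : ℕ} (hm : 1 ≤ m) (σ : Equiv.Perm (Fin (m + 2))) :
    (catG m σ).Connected := by
  have hs : ∀ s : Fin m, (catG m σ).Reachable (.inr ⟨0, hm⟩) (.inr s) := by
    intro s
    exact reach_spine s ⟨0, hm⟩ s (by simp) (fun s t hst _ _ => Or.inl hst)
  have ha : ∀ v, (catG m σ).Reachable (.inr ⟨0, hm⟩) v := by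
    rintro (l | s)
    · have hlt : att m (σ l) < m := by unfold att; omega
      refine (hs ⟨_, hlt⟩).trans ?_
      exact SimpleGraph.Adj.reachable (by show att m (σ l) = _; rfl)
    · exact hs s
  have : Nonempty (CV m) := ⟨.inr ⟨0, hm⟩⟩
  exact ⟨fun a b => (ha a).symm.trans (ha b)⟩

theorem catG_acyclic {m : ℕ} (σ : Equiv.Perm (Fin (m + 2))) : (catG m σ).IsAcyclic := by
  rw [SimpleGraph.isAcyclic_iff_forall_adj_isBridge]
  have key : ∀ s t : Fin m, (s : ℕ) + 1 = t →
      ¬ ((catG m σ).deleteEdges {s(.inr s, .inr t)}).Reachable (.inr s) (.inr t) := by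
    intro s t hst h
    have := reach_inv (f := fun v => pos m σ v ≤ s) ?_ h (by simp [pos])
    · simp only [pos] at this; omega
    · intro v w hvw' hv
      obtain ⟨hvw, h2⟩ := SimpleGraph.deleteEdges_adj.1 hvw'
      rcases v with v | v <;> rcases w with w | w
      · exact absurd hvw (fun h => h)
      · have h1 : att m (σ v) = w := hvw
        simp only [pos] at hv ⊢
        omega
      · have h1 : att m (σ w) = v := hvw
        simp only [pos] at hv ⊢
        omega
      · have h1 : (v : ℕ) + 1 = w ∨ (w : ℕ) + 1 = v := hvw
        simp only [pos] at hv ⊢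
        by_contra hcon
        have hv' : (v : ℕ) = s := by omega
        have hw' : (w : ℕ) = t := by omega
        have hv2 : v = s := Fin.ext hv'
        have hw2 : w = t := Fin.ext hw'
        subst hv2 hw2
        exact h2 rfl
  have key2 : ∀ (l : Fin (m + 2)) (s : Fin m), att m (σ l) = s →
      ¬ ((catG m σ).deleteEdges {s(.inl l, .inr s)}).Reachable (.inl l) (.inr s) := by
    intro l s hls h
    have := reach_inv (f := fun v => v = .inl l) ?_ h rfl
    · simp at this
    · intro v w hvw' hv
      obtain ⟨hvw, h2⟩ := SimpleGraph.deleteEdges_adj.1 hvw'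
      subst hv
      rcases w with w | w
      · exact absurd hvw (fun h => h)
      · have h1 : att m (σ l) = w := hvw
        have : w = s := by ext; omega
        subst this
        exact absurd rfl h2
  rintro (v | v) (w | w) hvw
  · exact absurd hvw (fun h => h)
  · exact key2 v w hvw
  · intro h
    refine key2 w v hvw ?_
    rw [Sym2.eq_swap]
    exact h.symm
  · rcases hvw with h1 | h1
    · exact key v w h1
    · intro h
      apply key w v h1
      rw [Sym2.eq_swap]
      exact h.symm

theorem ncard_three {α : Type*} {s : Set α} (a b c : α) (hab : a ≠ b) (hac : a ≠ c) (hbc : b ≠ c)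
    (h : ∀ x, x ∈ s ↔ x = a ∨ x = b ∨ x = c) : s.ncard = 3 := by
  rw [Set.ncard_eq_three]
  exact ⟨a, b, c, hab, hac, hbc, by ext x; simp [h]⟩

/-- The caterpillar whose leaves are attached in the order given by `σ`. -/
def cat (m : ℕ) (hm : 2 ≤ m) (σ : Equiv.Perm (Fin (m + 2))) : PhyloTree (m + 2) where
  V := CV m
  finite := inferInstance
  G := catG m σ
  isTree := ⟨catG_connected (by omega) σ, catG_acyclic σ⟩
  leaf := Sum.inl
  leaf_injective := Sum.inl_injective
  degree_leaf := by
    intro l
    have hlt : att m (σ l) < m := by unfold att; omega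
    rw [Set.ncard_eq_one]
    refine ⟨.inr ⟨_, hlt⟩, ?_⟩
    ext x
    rcases x with x | x
    · simp only [SimpleGraph.mem_neighborSet, Set.mem_singleton_iff, reduceCtorEq, iff_false]
      exact fun h => h
    · simp only [SimpleGraph.mem_neighborSet, Set.mem_singleton_iff]
      constructor
      · intro h
        have h1 : att m (σ l) = x := h
        congr 1
        ext
        exact h1.symm
      · intro h
        have := Sum.inr.inj h
        subst this
        show att m (σ l) = _
        rfl
  degree_internal := by
    rintro (v | v) hv
    · exact absurd ⟨v, rfl⟩ hv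
    · have hnb : ∀ x : CV m, x ∈ (catG m σ).neighborSet (.inr v) ↔
          catAdj m σ (.inr v) x := fun x => Iff.rfl
      have hl : ∀ (p : Fin (m + 2)) (x : Fin (m + 2)), (σ x = p) ↔ x = σ.symm p := by
        intro p x
        exact (Equiv.eq_symm_apply σ).symm
      have hv2 := v.2
      by_cases h0 : (v : ℕ) = 0
      · refine ncard_three (.inl (σ.symm ⟨0, by omega⟩)) (.inl (σ.symm ⟨1, by omega⟩))
          (.inr ⟨1, by omega⟩) ?_ (by simp) (by simp) ?_
        · intro h
          have := σ.symm.injective (Sum.inl.inj h)
          simp at this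
        · rintro (x | x)
          · rw [hnb]
            simp only [catAdj, Sum.inl.injEq, reduceCtorEq, or_false]
            rw [← hl, ← hl, Fin.ext_iff, Fin.ext_iff]
            unfold att
            simp only
            omega
          · rw [hnb]
            simp only [catAdj, Sum.inr.injEq, reduceCtorEq, false_or]
            rw [Fin.ext_iff]
            simp only
            omega
      · by_cases h1 : (v : ℕ) = m - 1
        · refine ncard_three (.inl (σ.symm ⟨m, by omega⟩)) (.inl (σ.symm ⟨m + 1, by omega⟩))
            (.inr ⟨m - 2, by omega⟩) ?_ (by simp) (by simp) ?_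
          · intro h
            have := σ.symm.injective (Sum.inl.inj h)
            simp at this
          · rintro (x | x)
            · rw [hnb]
              simp only [catAdj, Sum.inl.injEq, reduceCtorEq, or_false]
              rw [← hl, ← hl, Fin.ext_iff, Fin.ext_iff]
              have := (σ x).2
              unfold att
              simp only
              omega
            · rw [hnb]
              simp only [catAdj, Sum.inr.injEq, reduceCtorEq, false_or]
              rw [Fin.ext_iff]
              have := x.2
              simp only
              omega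
        · refine ncard_three (.inl (σ.symm ⟨v + 1, by omega⟩)) (.inr ⟨v - 1, by omega⟩)
            (.inr ⟨v + 1, by omega⟩) (by simp) (by simp) ?_ ?_
          · intro h
            have := Fin.ext_iff.1 (Sum.inr.inj h)
            simp only at this
            omega
          · rintro (x | x)
            · rw [hnb]
              simp only [catAdj, Sum.inl.injEq, reduceCtorEq, or_false]
              rw [← hl, Fin.ext_iff]
              unfold att
              simp only
              omega
            · rw [hnb]
              simp only [catAdj, Sum.inr.injEq, reduceCtorEq, false_or]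
              rw [Fin.ext_iff, Fin.ext_iff]
              simp only
              omega

end Pool.Agent.R935.Phylo
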