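import Pool.Agent.R935.Phylo.Conv

namespace Pool.Agent.R935.Phylo
open Finset

variable {n : ℕ}

open Classical in
/-- the singleton classes. -/
noncomputable def sing (P : Setoid (Fin n)) : Finset (Fin n) :=
  univ.filter fun x => ∀ y, P x y → y = x

open Classical in
/-- maxima of non-singleton classes that are not the topmost non-singleton element. -/
noncomputable def ends (P : Setoid (Fin n)) : Finset (Fin n) :=
  univ.filter fun x => x ∉ sing P ∧ (∀ y, P x y → y ≤ x) ∧ ∃ z, x < z ∧ z ∉ sing P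

theorem mem_sing {P : Setoid (Fin n)} {x : Fin n} : x ∈ sing P ↔ ∀ y, P x y → y = x := by
  simp [sing]

theorem mem_ends {P : Setoid (Fin n)} {x : Fin n} :
    x ∈ ends P ↔ x ∉ sing P ∧ (∀ y, P x y → y ≤ x) ∧ ∃ z, x < z ∧ z ∉ sing P := by
  simp [ends]

theorem not_mem_sing {P : Setoid (Fin n)} {x : Fin n} : x ∉ sing P ↔ ∃ y, P x y ∧ y ≠ x := by
  rw [mem_sing]; push Not; rfl

theorem not_sing_of_rel {P : Setoid (Fin n)} {x y : Fin n} (h : P x y) (hne : x ≠ y) :
    x ∉ sing P := not_mem_sing.2 ⟨y, h, hne.symm⟩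

theorem exists_max (P : Setoid (Fin n)) (x : Fin n) : ∃ y, P x y ∧ ∀ z, P y z → z ≤ y := by
  classical
  obtain ⟨y, hy, hmax⟩ := Finset.exists_max_image (univ.filter fun y => P x y) id
    ⟨x, by simpa using P.refl' x⟩
  simp only [mem_filter, mem_univ, true_and, id] at hy hmax
  exact ⟨y, hy, fun z hz => hmax z (P.trans' hy hz)⟩

open Classical in
theorem card_quot (P : Setoid (Fin n)) :
    Nat.card (Quotient P) = #(univ.filter fun x => ∀ y, P x y → y ≤ x) := by
  rw [← Fintype.card_coe, ← Nat.card_eq_fintype_card]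
  symm
  apply Nat.card_eq_of_bijective (fun x => (Quotient.mk P x.1))
  constructor
  · rintro ⟨x, hx⟩ ⟨y, hy⟩ hxy
    simp only [mem_filter, mem_univ, true_and] at hx hy
    have h : P x y := Quotient.exact hxy
    exact Subtype.ext (le_antisymm (hy x (P.symm' h)) (hx y h))
  · intro q
    induction q using Quotient.inductionOn with
    | h x =>
      obtain ⟨y, hxy, hy⟩ := exists_max P x
      exact ⟨⟨y, by simpa using hy⟩, Quotient.sound (P.symm' hxy)⟩

theorem card_quot' (P : Setoid (Fin n)) (h : ∃ x, x ∉ sing P) :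
    Nat.card (Quotient P) = #(sing P) + #(ends P) + 1 := by
  classical
  obtain ⟨t, ht, hmax⟩ := Finset.exists_max_image (univ.filter fun y => y ∉ sing P) id
    (by obtain ⟨x, hx⟩ := h; exact ⟨x, by simpa using hx⟩)
  simp only [mem_filter, mem_univ, true_and, id] at ht hmax
  rw [card_quot]
  have : (univ.filter fun x => ∀ y, P x y → y ≤ x) = insert t (sing P ∪ ends P) := by
    ext x
    simp only [mem_filter, mem_univ, true_and, mem_insert, mem_union]
    constructor
    · intro hx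
      by_cases h1 : x ∈ sing P
      · exact Or.inr (Or.inl h1)
      · rcases (hmax x h1).lt_or_eq with h2 | h2
        · exact Or.inr (Or.inr (mem_ends.2 ⟨h1, hx, t, h2, ht⟩))
        · exact Or.inl h2
    · rintro (rfl | h1 | h1)
      · intro y hy
        by_cases h2 : y = x
        · exact h2.le
        · exact hmax y (not_sing_of_rel (P.symm' hy) h2)
      · intro y hy
        exact (mem_sing.1 h1 y hy).le
      · exact (mem_ends.1 h1).2.1
  rw [this, card_insert_of_notMem, card_union_of_disjoint]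
  · rw [Finset.disjoint_left]
    intro x h1 h2
    exact (mem_ends.1 h2).1 h1
  · rw [mem_union]
    rintro (h1 | h1)
    · exact ht h1
    · obtain ⟨_, _, z, hz, hz'⟩ := mem_ends.1 h1
      exact absurd (hmax z hz') (not_le.2 hz)

theorem exists_not_sing (P : Setoid (Fin n)) (h : Nat.card (Quotient P) < n) :
    ∃ x, x ∉ sing P := by
  classical
  by_contra hcon
  push Not at hcon
  rw [card_quot, Finset.filter_true_of_mem, card_univ, Fintype.card_fin] at h
  · exact lt_irrefl _ h
  · intro x _ y hxy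
    exact (mem_sing.1 (hcon x) y hxy).le

/-- the partition with code `(S,E)`. -/
def R (S E : Finset (Fin n)) : Setoid (Fin n) where
  r i j := i = j ∨ (i ∉ S ∧ j ∉ S ∧ ∀ e ∈ E, (e < i ↔ e < j))
  iseqv := by
    refine ⟨fun i => Or.inl rfl, ?_, ?_⟩
    · rintro i j (rfl | ⟨h1, h2, h3⟩)
      · exact Or.inl rfl
      · exact Or.inr ⟨h2, h1, fun e he => (h3 e he).symm⟩
    · rintro i j k (rfl | ⟨h1, h2, h3⟩) (rfl | ⟨h4, h5, h6⟩)
      · exact Or.inl rfl
      · exact Or.inr ⟨h4, h5, h6⟩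
      · exact Or.inr ⟨h1, h2, h3⟩
      · exact Or.inr ⟨h1, h5, fun e he => (h3 e he).trans (h6 e he)⟩

theorem R_iff {S E : Finset (Fin n)} {i j : Fin n} :
    R S E i j ↔ i = j ∨ (i ∉ S ∧ j ∉ S ∧ ∀ e ∈ E, (e < i ↔ e < j)) := Iff.rfl

theorem recover (P : Setoid (Fin n)) (hP : Conv 1 P) : P = R (sing P) (ends P) := by
  have hP' : ∀ i j l, i < l → l < j → P i j → l ∉ sing P → P i l := by
    intro i j l h1 h2 h3 h4
    rcases hP i j l h1 h2 h3 with h | h
    · exact h
    · exact absurd (mem_sing.2 h) h4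
  apply Setoid.ext
  intro i j
  rw [R_iff]
  have key1 : ∀ i j, P i j → ∀ e ∈ ends P, e < i → e < j := by
    intro i j hij e he hei
    obtain ⟨h1, h2, -⟩ := mem_ends.1 he
    by_contra hcon
    rcases (not_lt.1 hcon).lt_or_eq with h3 | h3
    · have := hP' j i e h3 hei (P.symm' hij) h1
      exact absurd (h2 i (P.trans' (P.symm' this) (P.symm' hij))) (not_le.2 hei)
    · subst h3
      exact absurd (h2 i (P.symm' hij)) (not_le.2 hei)
  have key2 : ∀ i j, i ∉ sing P → j ∉ sing P → (∀ e ∈ ends P, (e < i ↔ e < j)) → i < j →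
      P i j := by
    intro i j hi hj h hij
    obtain ⟨e, hie, he⟩ := exists_max P i
    by_contra hcon
    have h1 : i ≤ e := he i (P.symm' hie)
    have hes : e ∉ sing P := by
      intro h2
      have := mem_sing.1 h2 i (P.symm' hie)
      subst this
      exact hi h2
    rcases lt_trichotomy e j with h2 | h2 | h2
    · have := (h e (mem_ends.2 ⟨hes, he, j, h2, hj⟩)).2 h2
      exact absurd h1 (not_le.2 this)
    · subst h2
      exact hcon hie
    · exact hcon (hP' i e j hij h2 hie hj)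
  constructor
  · intro hij
    by_cases h : i = j
    · exact Or.inl h
    · refine Or.inr ⟨not_sing_of_rel hij h, not_sing_of_rel (P.symm' hij) (Ne.symm h), ?_⟩
      intro e he
      exact ⟨key1 i j hij e he, key1 j i (P.symm' hij) e he⟩
  · rintro (rfl | ⟨h1, h2, h3⟩)
    · exact P.refl' _
    · rcases lt_trichotomy i j with h | h | h
      · exact key2 i j h1 h2 h3 h
      · subst h; exact P.refl' _
      · exact P.symm' (key2 j i h2 h1 (fun e he => (h3 e he).symm) h)

/-- good codes. -/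
def Good (S E : Finset (Fin n)) : Prop :=
  (∀ x, x ∉ S → ∃ y, y ≠ x ∧ y ∉ S ∧ ∀ e ∈ E, (e < x ↔ e < y)) ∧
  (∀ e ∈ E, e ∉ S ∧ ∃ y, e < y ∧ y ∉ S)

theorem sing_R {S E : Finset (Fin n)} (h : Good S E) : sing (R S E) = S := by
  ext x
  constructor
  · intro hx
    by_contra hcon
    obtain ⟨y, h1, h2, h3⟩ := h.1 x hcon
    exact h1 (mem_sing.1 hx y (Or.inr ⟨hcon, h2, h3⟩))
  · intro hx
    rw [mem_sing]
    rintro y (rfl | ⟨h1, -, -⟩)
    · rfl
    · exact absurd hx h1

theorem ends_R {S E : Finset (Fin n)} (h : Good S E) : ends (R S E) = E := by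
  classical
  ext x
  rw [mem_ends, sing_R h]
  constructor
  · rintro ⟨h1, h2, z, h3, h4⟩
    by_contra hx
    have hne : ¬ R S E x z := fun h5 => absurd (h2 z h5) (not_le.2 h3)
    have : ∃ e ∈ E, x < e ∧ e < z := by
      by_contra hcon
      push Not at hcon
      apply hne
      refine Or.inr ⟨h1, h4, fun e he => ⟨fun h5 => h5.trans h3, fun h5 => ?_⟩⟩
      by_contra h6
      rcases (not_lt.1 h6).lt_or_eq with h7 | h7
      · exact absurd h5 (not_lt.2 (hcon e he h7))
      · subst h7; exact hx he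
    obtain ⟨e, he, hmin⟩ := Finset.exists_min_image (E.filter fun e => x < e) id (by
      obtain ⟨e, he, h5, -⟩ := this
      exact ⟨e, by simp [he, h5]⟩)
    simp only [mem_filter, id] at he hmin
    refine absurd (h2 e (Or.inr ⟨h1, (h.2 e he.1).1, ?_⟩)) (not_le.2 he.2)
    intro e' he'
    refine ⟨fun h5 => h5.trans he.2, fun h5 => ?_⟩
    by_contra h6
    rcases (not_lt.1 h6).lt_or_eq with h7 | h7
    · exact absurd h5 (not_lt.2 (hmin e' ⟨he', h7⟩))
    · subst h7; exact hx he'
  · intro hx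
    obtain ⟨h1, y, h2, h3⟩ := h.2 x hx
    refine ⟨h1, ?_, y, h2, h3⟩
    rintro z (rfl | ⟨-, h5, h6⟩)
    · exact le_rfl
    · by_contra h7
      exact absurd ((h6 x hx).2 (not_le.1 h7)) (lt_irrefl _)

theorem conv_R_of_fixed {S E : Finset (Fin n)} (σ : Equiv.Perm (Fin n))
    (hσ : ∀ x, x ∉ S → σ x = x) : Conv σ (R S E) := by
  intro i j l hil hlj hij
  by_cases hl : l ∈ S
  · right
    rintro x (rfl | ⟨h1, -, -⟩)
    · rfl
    · exact absurd hl h1
  · left
    rcases hij with rfl | ⟨h1, h2, h3⟩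
    · exact absurd (hil.trans hlj) (lt_irrefl _)
    · rw [hσ i h1, hσ l hl] at hil
      rw [hσ l hl, hσ j h2] at hlj
      refine Or.inr ⟨h1, hl, fun e he => ⟨fun h => h.trans hil, fun h => ?_⟩⟩
      exact (h3 e he).2 (h.trans hlj)

theorem conv_R_empty {S : Finset (Fin n)} (σ : Equiv.Perm (Fin n)) : Conv σ (R S ∅) := by
  intro i j l hil hlj hij
  by_cases hl : l ∈ S
  · right
    rintro x (rfl | ⟨h1, -, -⟩)
    · rfl
    · exact absurd hl h1
  · left
    rcases hij with rfl | ⟨h1, h2, h3⟩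
    · exact absurd (hil.trans hlj) (lt_irrefl _)
    · exact Or.inr ⟨h1, hl, by simp⟩

theorem nonTrivial_R {S E : Finset (Fin n)} (h : Good S E) (hE : E.Nonempty) :
    NonTrivial (R S E) := by
  obtain ⟨e, he⟩ := hE
  obtain ⟨h1, y, h2, h3⟩ := h.2 e he
  obtain ⟨e', h4, h5, h6⟩ := h.1 e h1
  obtain ⟨y', h7, h8, h9⟩ := h.1 y h3
  refine ⟨e, e', y, y', Or.inr ⟨h1, h5, h6⟩, h4.symm, Or.inr ⟨h3, h8, h9⟩, h7.symm, ?_⟩
  rintro (rfl | ⟨-, -, h10⟩)
  · exact absurd h2 (lt_irrefl _)
  · exact absurd ((h10 e he).2 h2) (lt_irrefl _)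

theorem ends_eq_empty {P : Setoid (Fin n)} (h : ¬ NonTrivial P) : ends P = ∅ := by
  rw [Finset.eq_empty_iff_forall_notMem]
  intro e he
  obtain ⟨h1, h2, z, h3, h4⟩ := mem_ends.1 he
  obtain ⟨e', h5, h6⟩ := not_mem_sing.1 h1
  obtain ⟨z', h7, h8⟩ := not_mem_sing.1 h4
  apply h
  exact ⟨e, e', z, z', h5, h6.symm, h7, h8.symm, fun h9 => absurd (h2 z h9) (not_le.2 h3)⟩

end Pool.Agent.R935.Phylo
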