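import Pool.Agent.R935.Phylo.Cat

namespace Pool.Agent.R935.Phylo

/-- convexity with respect to the leaf order `σ` of a caterpillar. -/
def Conv {n : ℕ} (σ : Equiv.Perm (Fin n)) (P : Setoid (Fin n)) : Prop :=
  ∀ i j l, σ i < σ l → σ l < σ j → P i j → P i l ∨ ∀ x, P l x → x = l

theorem conv_of_induces {m : ℕ} (hm : 2 ≤ m) (σ : Equiv.Perm (Fin (m + 2)))
    (P : Setoid (Fin (m + 2))) (h : (cat m hm σ).Induces P) : Conv σ P := by
  obtain ⟨S, -, hS'⟩ := h
  have hS : ∀ i j, P i j ↔ ((catG m σ).deleteEdges S).Reachable (.inl i) (.inl j) := hS'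
  clear hS'
  intro i j l hil hlj hij
  by_contra hcon
  push Not at hcon
  obtain ⟨hnil, x, hlx, hxl⟩ := hcon
  have hlt : att m (σ l) < m := by unfold att; omega
  have h1 : ((catG m σ).deleteEdges S).Reachable (.inl l) (.inr ⟨att m (σ l), hlt⟩) := by
    obtain ⟨w⟩ := (hS l x).1 hlx
    cases w with
    | nil => exact absurd rfl hxl
    | @cons _ v _ hadj _ =>
      obtain ⟨hvw, h2⟩ := SimpleGraph.deleteEdges_adj.1 hadj
      rcases v with v | v
      · exact absurd hvw (fun h => h)
      · have h1 : att m (σ l) = v := hvw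
        have : v = ⟨att m (σ l), hlt⟩ := by ext; simp [h1]
        subst this
        exact hadj.reachable
  have h2 : ((catG m σ).deleteEdges S).Reachable (.inl i) (.inr ⟨att m (σ l), hlt⟩) := by
    by_contra hnr
    have h3 := reach_inv (f := fun v => ((catG m σ).deleteEdges S).Reachable (.inl i) v ∧
      (v = .inl i ∨ pos m σ v < att m (σ l))) ?_ ((hS i j).1 hij)
      ⟨SimpleGraph.Reachable.refl _, Or.inl rfl⟩
    · rcases h3.2 with h3 | h3
      · have : j = i := Sum.inl.inj h3
        subst this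
        exact absurd (hil.trans hlj) (lt_irrefl _)
      · simp only [pos, att] at h3
        rw [Fin.lt_def] at hlj
        omega
    · rintro v w hadj ⟨hr, hv⟩
      have hrw := hr.trans hadj.reachable
      refine ⟨hrw, ?_⟩
      obtain ⟨hvw, -⟩ := SimpleGraph.deleteEdges_adj.1 hadj
      right
      have hne : ∀ t : Fin m, w = .inr t → (t : ℕ) ≠ att m (σ l) := by
        rintro t rfl ht
        apply hnr
        have : t = ⟨att m (σ l), hlt⟩ := by ext; simp [ht]
        subst this
        exact hrw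
      rcases hv with rfl | hv
      · rcases w with w | w
        · exact absurd hvw (fun h => h)
        · have h1 : att m (σ i) = w := hvw
          have h2 := hne w rfl
          simp only [pos]
          rw [Fin.lt_def] at hil
          unfold att at h1 h2 ⊢
          omega
      · rcases v with v | v <;> rcases w with w | w
        · exact absurd hvw (fun h => h)
        · have h1 : att m (σ v) = w := hvw
          simp only [pos] at hv ⊢
          omega
        · have h1 : att m (σ w) = v := hvw
          simp only [pos] at hv ⊢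
          omega
        · have h1 : (v : ℕ) + 1 = w ∨ (w : ℕ) + 1 = v := hvw
          have h2 := hne w rfl
          simp only [pos] at hv ⊢
          omega
  exact hnil ((hS i l).2 (h2.trans h1.symm))

/-- overlap lemma. -/
theorem overlap {m : ℕ} {σ : Equiv.Perm (Fin (m + 2))} {P : Setoid (Fin (m + 2))}
    (hP : Conv σ P) {x y u v : Fin (m + 2)} (hxy : P x y) (hlt : σ x < σ y)
    (huv : P u v) (hlt' : σ u < σ v) (t : ℕ) (h1 : att m (σ x) ≤ t) (h2 : t ≤ att m (σ y))
    (h3 : att m (σ u) ≤ t) (h4 : t ≤ att m (σ v)) : P x u := by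
  have key : ∀ {x y u v : Fin (m + 2)}, P x y → σ x < σ y → P u v → σ u < σ v →
      att m (σ x) ≤ t → t ≤ att m (σ y) → att m (σ u) ≤ t → t ≤ att m (σ v) →
      σ x ≤ σ u → P x u := by
    intro x y u v hxy hlt huv hlt' h1 h2 h3 h4 hle
    rcases hle.lt_or_eq with hxu | hxu
    · rcases lt_trichotomy (σ u) (σ y) with huy | huy | huy
      · rcases hP x y u hxu huy hxy with h | h
        · exact h
        · have := h v huv
          subst this
          exact absurd hlt' (lt_irrefl _)
      · have := σ.injective huy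
        subst this
        exact hxy
      · exfalso
        have := (σ v).2
        rw [Fin.lt_def] at *
        unfold att at *
        omega
    · have := σ.injective hxu
      subst this
      exact P.refl' _
  rcases le_total (σ x) (σ u) with h | h
  · exact key hxy hlt huv hlt' h1 h2 h3 h4 h
  · exact P.symm' (key huv hlt' hxy hlt h3 h4 h1 h2 h)

def keepAdj (m : ℕ) (σ : Equiv.Perm (Fin (m + 2))) (P : Setoid (Fin (m + 2))) :
    CV m → CV m → Prop
  | .inl l, .inr s => att m (σ l) = s ∧ ∃ x, P l x ∧ x ≠ l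
  | .inr s, .inl l => att m (σ l) = s ∧ ∃ x, P l x ∧ x ≠ l
  | .inr s, .inr t => ((s : ℕ) + 1 = t ∨ (t : ℕ) + 1 = s) ∧ ∃ x y, P x y ∧
      att m (σ x) ≤ s ∧ att m (σ x) ≤ t ∧ (s : ℕ) ≤ att m (σ y) ∧ (t : ℕ) ≤ att m (σ y)
  | .inl _, .inl _ => False

def keepG (m : ℕ) (σ : Equiv.Perm (Fin (m + 2))) (P : Setoid (Fin (m + 2))) :
    SimpleGraph (CV m) where
  Adj := keepAdj m σ P
  symm := ⟨by
    rintro (a | a) (b | b) h
    · exact h
    · exact h
    · exact h
    · obtain ⟨h1, x, y, h2, h3, h4, h5, h6⟩ := h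
      exact ⟨h1.symm, x, y, h2, h4, h3, h6, h5⟩⟩
  loopless := ⟨by
    rintro (a | a) h
    · exact h
    · have := h.1
      omega⟩

theorem keepG_le (m : ℕ) (σ : Equiv.Perm (Fin (m + 2))) (P : Setoid (Fin (m + 2))) :
    keepG m σ P ≤ catG m σ := by
  rintro (a | a) (b | b) h
  · exact h
  · exact h.1
  · exact h.1
  · exact h.1

theorem induces_of_conv {m : ℕ} (hm : 2 ≤ m) (σ : Equiv.Perm (Fin (m + 2)))
    (P : Setoid (Fin (m + 2))) (hP : Conv σ P) : (cat m hm σ).Induces P := by
  have heq := SimpleGraph.deleteEdges_sdiff_eq_of_le (keepG_le m σ P)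
  suffices main : ∀ i j, P i j ↔ (keepG m σ P).Reachable (.inl i) (.inl j) by
    refine ⟨(catG m σ).edgeSet \ (keepG m σ P).edgeSet, Set.sdiff_subset, ?_⟩
    intro i j
    have := main i j
    rw [← heq] at this
    exact this
  intro i j
  constructor
  · have key : ∀ i j : Fin (m + 2), P i j → σ i < σ j →
        (keepG m σ P).Reachable (.inl i) (.inl j) := by
      intro i j hij hlt
      have hi : att m (σ i) < m := by unfold att; omega
      have hj : att m (σ j) < m := by unfold att; omega
      have hne : i ≠ j := by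
        rintro rfl
        exact absurd hlt (lt_irrefl _)
      have h1 : (keepG m σ P).Adj (.inl i) (.inr ⟨_, hi⟩) := ⟨rfl, j, hij, hne.symm⟩
      have h2 : (keepG m σ P).Adj (.inr ⟨_, hj⟩) (.inl j) := ⟨rfl, i, P.symm' hij, hne⟩
      refine h1.reachable.trans (SimpleGraph.Reachable.trans ?_ h2.reachable)
      have hle : att m (σ i) ≤ att m (σ j) := by
        rw [Fin.lt_def] at hlt
        unfold att
        omega
      refine reach_spine (att m (σ j) - att m (σ i)) _ _ (by simp only; omega) ?_
      intro s t hst h3 h4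
      simp only at h3 h4
      exact ⟨Or.inl hst, i, j, hij, by omega, by omega, by omega, by omega⟩
    intro hij
    rcases lt_trichotomy (σ i) (σ j) with h | h | h
    · exact key i j hij h
    · rw [σ.injective h]
    · exact (key j i (P.symm' hij) h).symm
  · intro h
    let f : CV m → Prop := fun v => match v with
      | .inl x => P i x
      | .inr t => ∃ x y, P i x ∧ P x y ∧ σ x < σ y ∧ att m (σ x) ≤ t ∧ (t : ℕ) ≤ att m (σ y)
    have hf : f (.inl j) := by
      refine reach_inv (f := f) ?_ h (P.refl' i)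
      rintro (v | v) (w | w) hvw hv
      · exact absurd hvw (fun h => h)
      · obtain ⟨h1, y, hvy, hyv⟩ : att m (σ v) = w ∧ ∃ x, P v x ∧ x ≠ v := hvw
        have hv' : P i v := hv
        show ∃ x y, P i x ∧ P x y ∧ σ x < σ y ∧ att m (σ x) ≤ w ∧ (w : ℕ) ≤ att m (σ y)
        rcases lt_or_gt_of_ne (fun h => hyv (σ.injective h) : σ y ≠ σ v) with h2 | h2
        · refine ⟨y, v, P.trans' hv' hvy, P.symm' hvy, h2, ?_, by omega⟩
          rw [Fin.lt_def] at h2
          unfold att at h1 ⊢
          omega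
        · refine ⟨v, y, hv', hvy, h2, by omega, ?_⟩
          rw [Fin.lt_def] at h2
          unfold att at h1 ⊢
          omega
      · obtain ⟨h1, y, hwy, hyw⟩ : att m (σ w) = v ∧ ∃ x, P w x ∧ x ≠ w := hvw
        obtain ⟨x, x', h2, h3, h4, h5, h6⟩ : ∃ x y, P i x ∧ P x y ∧ σ x < σ y ∧
          att m (σ x) ≤ v ∧ (v : ℕ) ≤ att m (σ y) := hv
        show P i w
        rcases lt_or_gt_of_ne (fun h => hyw (σ.injective h) : σ y ≠ σ w) with h7 | h7
        · have : P x y := overlap hP h3 h4 (P.symm' hwy) h7 v h5 h6 (by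
            rw [Fin.lt_def] at h7
            unfold att at h1 ⊢
            omega) (by omega)
          exact P.trans' h2 (P.trans' this (P.symm' hwy))
        · have : P x w := overlap hP h3 h4 hwy h7 v h5 h6 (by omega) (by
            rw [Fin.lt_def] at h7
            unfold att at h1 ⊢
            omega)
          exact P.trans' h2 this
      · obtain ⟨h1, u, u', h7, h8, h9, h10, h11⟩ : ((v : ℕ) + 1 = w ∨ (w : ℕ) + 1 = v) ∧
          ∃ x y, P x y ∧ att m (σ x) ≤ v ∧ att m (σ x) ≤ w ∧ (v : ℕ) ≤ att m (σ y) ∧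
            (w : ℕ) ≤ att m (σ y) := hvw
        obtain ⟨x, x', h2, h3, h4, h5, h6⟩ : ∃ x y, P i x ∧ P x y ∧ σ x < σ y ∧
          att m (σ x) ≤ v ∧ (v : ℕ) ≤ att m (σ y) := hv
        show ∃ x y, P i x ∧ P x y ∧ σ x < σ y ∧ att m (σ x) ≤ w ∧ (w : ℕ) ≤ att m (σ y)
        have hlt : σ u < σ u' := by
          rw [Fin.lt_def]
          unfold att at h8 h9 h10 h11
          omega
        have : P x u := overlap hP h3 h4 h7 hlt v h5 h6 h8 h10
        exact ⟨u, u', P.trans' h2 this, h7, hlt, h9, h11⟩
    exact hf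

theorem induces_iff {m : ℕ} (hm : 2 ≤ m) (σ : Equiv.Perm (Fin (m + 2)))
    (P : Setoid (Fin (m + 2))) : (cat m hm σ).Induces P ↔ Conv σ P :=
  ⟨conv_of_induces hm σ P, induces_of_conv hm σ P⟩

end Pool.Agent.R935.Phylo
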