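import Pool.Agent.R935.Phylo.Pair

namespace Pool.Agent.R935.Phylo
open Finset

theorem card_supersets {α : Type*} [DecidableEq α] (U B : Finset α) (t : ℕ) :
    #((powersetCard t U).filter fun X => B ⊆ X) ≤ (#U - #B).choose (t - #B) := by
  by_cases hB : B ⊆ U
  · rw [← card_sdiff_of_subset hB, ← card_powersetCard]
    apply card_le_card_of_injOn (fun X => X \ B)
    · intro X hX
      simp only [coe_filter, mem_powersetCard, Set.mem_ofPred_eq] at hX
      rw [mem_coe, mem_powersetCard]
      refine ⟨sdiff_subset_sdiff hX.1.1 (le_refl _), ?_⟩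
      rw [card_sdiff_of_subset hX.2, hX.1.2]
    · intro X hX Y hY hXY
      simp only [coe_filter, mem_powersetCard, Set.mem_ofPred_eq] at hX hY
      have h : X \ B = Y \ B := hXY
      rw [← sdiff_union_of_subset hX.2, ← sdiff_union_of_subset hY.2, h]
  · rw [filter_false_of_mem]
    · simp
    · intro X hX hBX
      exact hB (hBX.trans (mem_powersetCard.1 hX).1)

theorem sparse_count {α : Type*} [DecidableEq α] (U : Finset α) (t : ℕ) (b1 : Finset α)
    (b2 : Finset (α × α)) (h2 : ∀ p ∈ b2, p.1 ≠ p.2) (good : Finset α → Prop)
    [DecidablePred good]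
    (h : ∀ X ∈ powersetCard t U, (∀ x ∈ b1, x ∉ X) → (∀ p ∈ b2, ¬ (p.1 ∈ X ∧ p.2 ∈ X)) →
      good X) :
    (#U).choose t ≤ #((powersetCard t U).filter good) + #b1 * (#U - 1).choose (t - 1) +
      #b2 * (#U - 2).choose (t - 2) := by
  rw [← card_powersetCard]
  have hsub : powersetCard t U ⊆ ((powersetCard t U).filter good) ∪
      (b1.biUnion fun x => (powersetCard t U).filter fun X => {x} ⊆ X) ∪
      (b2.biUnion fun p => (powersetCard t U).filter fun X => {p.1, p.2} ⊆ X) := by
    intro X hX
    simp only [mem_union, mem_filter, mem_biUnion, hX, true_and]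
    by_contra hcon
    push Not at hcon
    obtain ⟨⟨h3, h4⟩, h5⟩ := hcon
    apply h3
    apply h X hX
    · intro x hx hxX
      exact h4 x hx (by simpa using hxX)
    · rintro p hp ⟨hp1, hp2⟩
      refine h5 p hp ?_
      intro y hy
      rw [mem_insert, mem_singleton] at hy
      rcases hy with rfl | rfl
      · exact hp1
      · exact hp2
  refine (card_le_card hsub).trans ((card_union_le _ _).trans (add_le_add
    ((card_union_le _ _).trans (add_le_add le_rfl ?_)) ?_))
  · apply card_biUnion_le_card_mul
    intro x _
    have := card_supersets U {x} t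
    rwa [card_singleton] at this
  · apply card_biUnion_le_card_mul
    intro p hp
    have := card_supersets U {p.1, p.2} t
    rwa [card_pair (h2 p hp)] at this

section
variable (m : ℕ) (hm : 10 ≤ m)

/-- labels other than the two exchanged ones. -/
def U0 : Finset (Fin (m + 2)) := univ \ {aa m hm, bb m}

theorem aa_ne_bb : aa m hm ≠ bb m := by
  intro h
  have := Fin.ext_iff.1 h
  simp only [aa, bb] at this
  omega

theorem card_U0 : #(U0 m hm) = m := by
  unfold U0
  rw [card_sdiff_of_subset (subset_univ _), card_univ, Fintype.card_fin,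
    card_pair (aa_ne_bb m hm)]
  omega

theorem mem_U0 (x : Fin (m + 2)) : x ∈ U0 m hm ↔ (x : ℕ) ≠ 2 ∧ (x : ℕ) ≠ m + 1 := by
  unfold U0
  simp only [mem_sdiff, mem_univ, true_and, mem_insert, mem_singleton, not_or, Fin.ext_iff, aa, bb]

def sp (m : ℕ) : Fin (m + 2) ⊕ Fin (m + 2) → ℕ := Sum.elim (fun x => (x : ℕ)) (fun x => (x : ℕ))

def Sparse (m : ℕ) (X : Finset (Fin (m + 2) ⊕ Fin (m + 2))) : Prop :=
  (∀ u ∈ X, 5 ≤ sp m u ∧ sp m u < m - 2) ∧
  (∀ u ∈ X, ∀ v ∈ X, u ≠ v → sp m u + 1 < sp m v ∨ sp m v + 1 < sp m u)

theorem good_of_sparse (X : Finset (Fin (m + 2) ⊕ Fin (m + 2))) (hs : Sparse m X) :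
    Good (X.toLeft ∪ {aa m hm, bb m}) X.toRight := by
  have hL : ∀ x : Fin (m + 2), x ∈ X.toLeft ∪ {aa m hm, bb m} ↔
      (Sum.inl x ∈ X ∨ (x : ℕ) = 2 ∨ (x : ℕ) = m + 1) := by
    intro x
    simp only [mem_union, mem_toLeft, mem_insert, mem_singleton, Fin.ext_iff, aa, bb]
  have hborder : ∀ x : Fin (m + 2), (x : ℕ) < 5 ∨ m - 2 ≤ (x : ℕ) →
      Sum.inl x ∉ X ∧ Sum.inr x ∉ X := by
    intro x hx
    constructor
    · intro h
      have := hs.1 _ h
      simp only [sp, Sum.elim_inl] at this
      omega
    · intro h
      have := hs.1 _ h
      simp only [sp, Sum.elim_inr] at this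
      omega
  have hLL : ∀ x y : Fin (m + 2), Sum.inl x ∈ X → Sum.inl y ∈ X → (x : ℕ) ≠ y →
      (x : ℕ) + 1 < y ∨ (y : ℕ) + 1 < x := by
    intro x y hx hy hne
    exact hs.2 _ hx _ hy (fun h => hne (by rw [Sum.inl.inj h]))
  have hRR : ∀ x y : Fin (m + 2), Sum.inr x ∈ X → Sum.inr y ∈ X → (x : ℕ) ≠ y →
      (x : ℕ) + 1 < y ∨ (y : ℕ) + 1 < x := by
    intro x y hx hy hne
    exact hs.2 _ hx _ hy (fun h => hne (by rw [Sum.inr.inj h]))
  have hLR : ∀ x y : Fin (m + 2), Sum.inl x ∈ X → Sum.inr y ∈ X →
      (x : ℕ) + 1 < y ∨ (y : ℕ) + 1 < x := by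
    intro x y hx hy
    exact hs.2 _ hx _ hy (by simp)
  constructor
  · intro x hx
    rw [hL] at hx
    push Not at hx
    obtain ⟨hx1, hx2, hx3⟩ := hx
    have hxlt := x.2
    by_cases hxE : Sum.inr x ∈ X
    · -- use x - 1
      have hb := hs.1 _ hxE
      simp only [sp, Sum.elim_inr] at hb
      refine ⟨⟨x - 1, by omega⟩, ?_, ?_, ?_⟩
      · intro h
        have := Fin.ext_iff.1 h
        simp only at this
        omega
      · rw [hL]
        push Not
        refine ⟨?_, by simp only; omega, by simp only; omega⟩
        intro h
        have := hLR _ _ h hxE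
        simp only at this
        omega
      · intro e he
        rw [mem_toRight] at he
        rw [Fin.lt_def, Fin.lt_def]
        simp only
        by_cases hex : (e : ℕ) = x
        · omega
        · have := hRR _ _ he hxE hex
          omega
    · by_cases hxb : (x : ℕ) ≤ m - 2
      · by_cases hx1S : Sum.inl (⟨x + 1, by omega⟩ : Fin (m + 2)) ∈ X ∨ (x : ℕ) + 1 = 2
        · -- use x + 2
          have hno : Sum.inr (⟨x + 1, by omega⟩ : Fin (m + 2)) ∉ X := by
            intro h
            rcases hx1S with h1 | h1
            · have := hLR _ _ h1 h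
              simp only at this
              omega
            · exact (hborder ⟨x + 1, by omega⟩ (by simp only; omega)).2 h
          refine ⟨⟨x + 2, by omega⟩, ?_, ?_, ?_⟩
          · intro h
            have := Fin.ext_iff.1 h
            simp only at this
            omega
          · rw [hL]
            push Not
            have hle : (x : ℕ) + 1 < m - 2 := by
              rcases hx1S with h1 | h1
              · have := hs.1 _ h1
                simp only [sp, Sum.elim_inl] at this
                omega
              · omega
            have hge : 1 ≤ (x : ℕ) := by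
              rcases hx1S with h1 | h1
              · have := hs.1 _ h1
                simp only [sp, Sum.elim_inl] at this
                omega
              · omega
            refine ⟨?_, by simp only; omega, by simp only; omega⟩
            intro h
            rcases hx1S with h1 | h1
            · have := hLL _ _ h1 h (by simp only; omega)
              simp only at this
              omega
            · exact (hborder ⟨x + 2, by omega⟩ (by simp only; omega)).1 h
          · intro e he
            rw [mem_toRight] at he
            rw [Fin.lt_def, Fin.lt_def]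
            simp only
            have h1 : (e : ℕ) ≠ x := by
              intro h
              have : e = x := Fin.ext h
              subst this
              exact hxE he
            have h2 : (e : ℕ) ≠ x + 1 := by
              intro h
              have : e = ⟨x + 1, by omega⟩ := Fin.ext h
              rw [this] at he
              exact hno he
            omega
        · push Not at hx1S
          refine ⟨⟨x + 1, by omega⟩, ?_, ?_, ?_⟩
          · intro h
            have := Fin.ext_iff.1 h
            simp only at this
            omega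
          · rw [hL]
            push Not
            exact ⟨hx1S.1, hx1S.2, by simp only; omega⟩
          · intro e he
            rw [mem_toRight] at he
            rw [Fin.lt_def, Fin.lt_def]
            simp only
            have h1 : (e : ℕ) ≠ x := by
              intro h
              have : e = x := Fin.ext h
              subst this
              exact hxE he
            omega
      · -- x = m - 1 or m; use x - 1
        refine ⟨⟨x - 1, by omega⟩, ?_, ?_, ?_⟩
        · intro h
          have := Fin.ext_iff.1 h
          simp only at this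
          omega
        · rw [hL]
          push Not
          exact ⟨(hborder ⟨x - 1, by omega⟩ (by simp only; omega)).1, by simp only; omega,
            by simp only; omega⟩
        · intro e he
          rw [mem_toRight] at he
          rw [Fin.lt_def, Fin.lt_def]
          simp only
          have hb := hs.1 _ he
          simp only [sp, Sum.elim_inr] at hb
          omega
  · intro e he
    rw [mem_toRight] at he
    have hb := hs.1 _ he
    simp only [sp, Sum.elim_inr] at hb
    constructor
    · rw [hL]
      push Not
      refine ⟨?_, by omega, by omega⟩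
      intro h
      have := hLR _ _ h he
      omega
    · refine ⟨⟨e + 1, by omega⟩, by rw [Fin.lt_def]; simp only; omega, ?_⟩
      rw [hL]
      push Not
      refine ⟨?_, by simp only; omega, by simp only; omega⟩
      intro h
      have := hLR _ _ h he
      simp only at this
      omega

theorem card_bd : #(univ.filter fun x : Fin (m + 2) => (x : ℕ) < 5 ∨ m - 2 ≤ (x : ℕ)) ≤ 9 := by
  rw [← card_range 9]
  apply card_le_card_of_injOn
    (fun x : Fin (m + 2) => if (x : ℕ) < 5 then (x : ℕ) else (x : ℕ) - (m - 2) + 5)
  · intro x hx
    simp only [coe_filter, mem_univ, true_and, Set.mem_ofPred_eq] at hx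
    simp only [coe_range, Set.mem_Iio]
    have := x.2
    split_ifs <;> omega
  · intro x hx y hy hxy
    simp only [coe_filter, mem_univ, true_and, Set.mem_ofPred_eq] at hx hy
    simp only at hxy
    apply Fin.ext
    split_ifs at hxy <;> omega

open Classical in
theorem sparse_lower (t : ℕ) :
    (2 * m).choose t ≤ #((powersetCard t ((U0 m hm).disjSum (U0 m hm))).filter (Sparse m)) +
      18 * (2 * m - 1).choose (t - 1) + (12 * m) * (2 * m - 2).choose (t - 2) := by
  have hU : #((U0 m hm).disjSum (U0 m hm)) = 2 * m := by
    rw [card_disjSum, card_U0]; ring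
  let bd : Finset (Fin (m + 2)) := univ.filter fun x => (x : ℕ) < 5 ∨ m - 2 ≤ (x : ℕ)
  let V := (U0 m hm).disjSum (U0 m hm)
  let b2 : Finset ((Fin (m + 2) ⊕ Fin (m + 2)) × (Fin (m + 2) ⊕ Fin (m + 2))) :=
    (V ×ˢ V).filter fun p => p.1 ≠ p.2 ∧ sp m p.1 ≤ sp m p.2 + 1 ∧ sp m p.2 ≤ sp m p.1 + 1
  have h1 := sparse_count V t (bd.disjSum bd) b2
    (fun p hp => (mem_filter.1 hp).2.1) (Sparse m) (by
      intro X hX h3 h4
      constructor
      · intro u hu
        by_contra hcon
        refine h3 u ?_ hu
        rcases u with u | u
        · simp only [sp, Sum.elim_inl] at hcon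
          simp only [inl_mem_disjSum, bd, mem_filter, mem_univ, true_and]
          omega
        · simp only [sp, Sum.elim_inr] at hcon
          simp only [inr_mem_disjSum, bd, mem_filter, mem_univ, true_and]
          omega
      · intro u hu v hv huv
        by_contra hcon
        refine h4 (u, v) ?_ ⟨hu, hv⟩
        simp only [b2, mem_filter, mem_product]
        have hXV := (mem_powersetCard.1 hX).1
        exact ⟨⟨hXV hu, hXV hv⟩, huv, by omega, by omega⟩)
  have hV : #V = 2 * m := hU
  have hb1 : #(bd.disjSum bd) ≤ 18 := by
    rw [card_disjSum]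
    have := card_bd m
    simp only [bd]
    omega
  have hb2 : #b2 ≤ 12 * m := by
    have : #(V ×ˢ ((range 3) ×ˢ (univ : Finset Bool))) = 12 * m := by
      rw [card_product, card_product, hV, card_range, card_univ, Fintype.card_bool]
      ring
    rw [← this]
    apply card_le_card_of_injOn
      (fun p => (p.1, (sp m p.2 + 1 - sp m p.1, Sum.isLeft p.2)))
    · intro p hp
      simp only [b2, coe_filter, mem_product, Set.mem_ofPred_eq] at hp
      simp only [coe_product, Set.mem_prod, mem_coe, coe_range, Set.mem_Iio, coe_univ,
        Set.mem_univ, and_true]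
      exact ⟨hp.1.1, by omega⟩
    · rintro ⟨p1, p2⟩ hp ⟨q1, q2⟩ hq hpq
      simp only [b2, coe_filter, mem_product, Set.mem_ofPred_eq] at hp hq
      simp only [Prod.mk.injEq] at hpq
      obtain ⟨e1, e2, e3⟩ := hpq
      subst e1
      have e4 : sp m p2 = sp m q2 := by omega
      rcases p2 with p2 | p2 <;> rcases q2 with q2 | q2
      · simp only [sp, Sum.elim_inl] at e4
        rw [Fin.ext e4]
      · simp at e3
      · simp at e3
      · simp only [sp, Sum.elim_inr] at e4
        rw [Fin.ext e4]
  rw [hV] at h1
  refine h1.trans ?_
  gcongr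

end

end Pool.Agent.R935.Phylo
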