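import Mathlib

namespace Pool.Agent.R935.Phylo

/-- An `n`-leaf phylogenetic tree: a finite tree whose vertices have degree `1` or `3`, with the
degree-one vertices labelled bijectively by `Fin n`. -/
structure PhyloTree (n : ℕ) where
  V : Type
  finite : Finite V
  G : SimpleGraph V
  isTree : G.IsTree
  leaf : Fin n → V
  leaf_injective : Function.Injective leaf
  degree_leaf : ∀ i, (G.neighborSet (leaf i)).ncard = 1
  degree_internal : ∀ v, v ∉ Set.range leaf → (G.neighborSet v).ncard = 3

/-- The partition `P` of the label set arises from `T` by deleting a set `S` of edges. -/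
def PhyloTree.Induces {n : ℕ} (T : PhyloTree n) (P : Setoid (Fin n)) : Prop :=
  ∃ S : Set (Sym2 T.V), S ⊆ T.G.edgeSet ∧
    ∀ i j, P i j ↔ (T.G.deleteEdges S).Reachable (T.leaf i) (T.leaf j)

/-- At least two classes of size at least two. -/
def NonTrivial {n : ℕ} (P : Setoid (Fin n)) : Prop :=
  ∃ a b c d, P a b ∧ a ≠ b ∧ P c d ∧ c ≠ d ∧ ¬ P a c

/-- `a_k(T,F)`: the number of common partitions with exactly `k` classes. -/
noncomputable def common {n : ℕ} (T F : PhyloTree n) (k : ℕ) : ℕ :=
  Set.ncard {P : Setoid (Fin n) | T.Induces P ∧ F.Induces P ∧ Nat.card (Quotient P) = k}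

/-- The number of non-trivial common partitions with exactly `k` classes. -/
noncomputable def commonNT {n : ℕ} (T F : PhyloTree n) (k : ℕ) : ℕ :=
  Set.ncard {P : Setoid (Fin n) |
    T.Induces P ∧ F.Induces P ∧ Nat.card (Quotient P) = k ∧ NonTrivial P}

end Pool.Agent.R935.Phylo
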