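import Pool.Agent.R935.Phylo.Bounds

namespace Pool.Agent.R935.Phylo
open Finset

theorem hm0 : 10 ≤ 32768 := by norm_num

theorem lowNT (k : ℕ) (hk : 4 ≤ k) (hkm : k ≤ 32768) :
    (65536).choose (k - 3) + (32768).choose (k - 2) ≤
      commonNT (T0 32768 hm0) (F0 32768 hm0) k + (32768).choose (k - 3) +
      18 * (65535).choose (k - 3 - 1) + 393216 * (65534).choose (k - 3 - 2) +
      (32766).choose (k - 4) := by
  have h1 := lowerNT 32768 hm0 k hk hkm
  have h2 := card_Cf 32768 hm0 (k - 3)
  have h3 := card_Cg 32768 hm0 k
  norm_num only at h2 h3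
  omega

theorem lowAll (k : ℕ) (hk : 4 ≤ k) (hkm : k ≤ 32768) :
    (32770).choose (k - 1) + (65536).choose (k - 3) ≤
      common (T0 32768 hm0) (F0 32768 hm0) k + (32768).choose (k - 3) +
      18 * (65535).choose (k - 3 - 1) + 393216 * (65534).choose (k - 3 - 2) := by
  have h1 := lowerAll 32768 hm0 k hk hkm
  have h2 := card_Cf 32768 hm0 (k - 3)
  have h3 := card_Ct 32768 k
  norm_num only at h2 h3
  omega

theorem NT_not_logConcave : commonNT (T0 32768 hm0) (F0 32768 hm0) 13 ^ 2 <
    commonNT (T0 32768 hm0) (F0 32768 hm0) 12 * commonNT (T0 32768 hm0) (F0 32768 hm0) 14 := by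
  have h1 := lowNT 12 (by norm_num) (by norm_num)
  have h2 := lowNT 14 (by norm_num) (by norm_num)
  have h3 := upperNT 32768 hm0 13 (by norm_num)
  generalize commonNT (T0 32768 hm0) (F0 32768 hm0) 12 = a at *
  generalize commonNT (T0 32768 hm0) (F0 32768 hm0) 13 = b at *
  generalize commonNT (T0 32768 hm0) (F0 32768 hm0) 14 = c at *
  norm_num [Nat.choose_eq_descFactorial_div_factorial, Nat.descFactorial, Nat.factorial]
    at h1 h2 h3
  have h4 : 453515875436439612421972796722678902757 ≤ a := by omega
  have h5 : 5557859047496540477607155029875794341215940579 ≤ c := by omega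
  have h6 : b ≤ 1572147407588006004994524196298935117742080 := by omega
  calc b ^ 2 ≤ (1572147407588006004994524196298935117742080) ^ 2 := Nat.pow_le_pow_left h6 2
    _ < 453515875436439612421972796722678902757 * 5557859047496540477607155029875794341215940579 := by norm_num
    _ ≤ a * c := Nat.mul_le_mul h4 h5

theorem All_not_logConcave : common (T0 32768 hm0) (F0 32768 hm0) 22 ^ 2 <
    common (T0 32768 hm0) (F0 32768 hm0) 21 * common (T0 32768 hm0) (F0 32768 hm0) 23 := by
  have h1 := lowAll 21 (by norm_num) (by norm_num)
  have h2 := lowAll 23 (by norm_num) (by norm_num)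
  have h3 := upperAll 32768 hm0 22 (by norm_num)
  generalize common (T0 32768 hm0) (F0 32768 hm0) 21 = a at *
  generalize common (T0 32768 hm0) (F0 32768 hm0) 22 = b at *
  generalize common (T0 32768 hm0) (F0 32768 hm0) 23 = c at *
  norm_num [Nat.choose_eq_descFactorial_div_factorial, Nat.descFactorial, Nat.factorial]
    at h1 h2 h3
  have h4 : 908404008995779773931592375644745399109057070300433848525055794978455570 ≤ a := by omega
  have h5 : 2775026325884916855524223139441110085305420319937068360866734590957170978496530 ≤ c := by omega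
  have h6 : b ≤ 1567869321036243255586822623081332903492145134989430032693599196706529484800 := by omega
  calc b ^ 2 ≤ (1567869321036243255586822623081332903492145134989430032693599196706529484800) ^ 2 := Nat.pow_le_pow_left h6 2
    _ < 908404008995779773931592375644745399109057070300433848525055794978455570 * 2775026325884916855524223139441110085305420319937068360866734590957170978496530 := by norm_num
    _ ≤ a * c := Nat.mul_le_mul h4 h5

end Pool.Agent.R935.Phylo
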