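import Pool.Agent.R935.Phylo.Code

namespace Pool.Agent.R935.Phylo
open Finset

def aa (m : ℕ) (hm : 10 ≤ m) : Fin (m + 2) := ⟨2, by omega⟩
def bb (m : ℕ) : Fin (m + 2) := ⟨m + 1, by omega⟩

/-- the leaf order exchanging the leaves `2` and `m+1`. -/
def tau (m : ℕ) (hm : 10 ≤ m) : Equiv.Perm (Fin (m + 2)) := Equiv.swap (aa m hm) (bb m)

theorem tau_val (m : ℕ) (hm : 10 ≤ m) (x : Fin (m + 2)) :
    ((tau m hm x : Fin (m + 2)) : ℕ) =
      if (x : ℕ) = 2 then m + 1 else if (x : ℕ) = m + 1 then 2 else x := by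
  unfold tau
  rw [Equiv.swap_apply_def]
  simp only [Fin.ext_iff, aa, bb]
  split_ifs <;> rfl

theorem classify_aux {m : ℕ} (P : Setoid (Fin (m + 2))) (hN : NonTrivial P)
    (c : Fin (m + 2)) (hc2 : 2 ≤ (c : ℕ)) (hc : c ∉ sing P)
    (h : ∀ l : Fin (m + 2), 2 ≤ (l : ℕ) → l ∉ sing P → P c l) :
    (0 : Fin (m + 2)) ∉ sing P ∧ (1 : Fin (m + 2)) ∉ sing P ∧ ends P = {1} := by
  have v0 : ((0 : Fin (m + 2)) : ℕ) = 0 := rfl
  have v1 : ((1 : Fin (m + 2)) : ℕ) = 1 := by simp
  obtain ⟨x, x', y, y', h1, h2, h3, h4, h5⟩ := hN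
  have key : ∃ z z', P z z' ∧ z ≠ z' ∧ ¬ P c z := by
    by_cases h6 : P c x
    · refine ⟨y, y', h3, h4, fun h7 => h5 (P.trans' (P.symm' h6) h7)⟩
    · exact ⟨x, x', h1, h2, h6⟩
  obtain ⟨z, z', hz1, hz2, hz3⟩ := key
  have hz : z ∉ sing P := not_sing_of_rel hz1 hz2
  have hz' : z' ∉ sing P := not_sing_of_rel (P.symm' hz1) hz2.symm
  have hz4 : ¬ P c z' := fun h6 => hz3 (P.trans' h6 (P.symm' hz1))
  have hzl : (z : ℕ) < 2 := by
    by_contra h6
    exact hz3 (h z (by omega) hz)
  have hzl' : (z' : ℕ) < 2 := by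
    by_contra h6
    exact hz4 (h z' (by omega) hz')
  have hzz : (z : ℕ) ≠ z' := fun h6 => hz2 (Fin.ext h6)
  have h01 : P 0 1 ∧ ¬ P c 0 := by
    by_cases h6 : (z : ℕ) = 0
    · have e1 : z = 0 := Fin.ext (by omega)
      have e2 : z' = 1 := Fin.ext (by omega)
      rw [← e1, ← e2]
      exact ⟨hz1, hz3⟩
    · have e1 : z = 1 := Fin.ext (by omega)
      have e2 : z' = 0 := Fin.ext (by omega)
      rw [← e1, ← e2]
      exact ⟨P.symm' hz1, hz4⟩
  have ne01 : (0 : Fin (m + 2)) ≠ 1 := by
    intro h6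
    have := Fin.ext_iff.1 h6
    omega
  refine ⟨not_sing_of_rel h01.1 ne01, not_sing_of_rel (P.symm' h01.1) ne01.symm, ?_⟩
  ext e
  rw [mem_singleton, mem_ends]
  constructor
  · rintro ⟨h6, h7, w, h8, h9⟩
    rw [Fin.lt_def] at h8
    by_contra h10
    by_cases h11 : (e : ℕ) = 0
    · have : e = 0 := Fin.ext (by omega)
      subst this
      have := Fin.le_def.1 (h7 1 h01.1)
      omega
    · have h12 : (e : ℕ) ≠ 1 := fun h13 => h10 (Fin.ext (by omega))
      have h13 := h e (by omega) h6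
      have h14 := h w (by omega) h9
      have := Fin.le_def.1 (h7 w (P.trans' (P.symm' h13) h14))
      omega
  · rintro rfl
    refine ⟨not_sing_of_rel (P.symm' h01.1) ne01.symm, ?_, c, by rw [Fin.lt_def]; omega, hc⟩
    intro y hy
    rw [Fin.le_def]
    by_contra h6
    have h7 : y ∉ sing P := not_sing_of_rel (P.symm' hy) (by rintro rfl; omega)
    exact h01.2 (P.trans' (h y (by omega) h7) (P.trans' (P.symm' hy) (P.symm' h01.1)))

theorem classify {m : ℕ} (hm : 10 ≤ m) (P : Setoid (Fin (m + 2))) (h1 : Conv 1 P)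
    (h2 : Conv (tau m hm) P) (hN : NonTrivial P) :
    (aa m hm ∈ sing P ∧ bb m ∈ sing P) ∨
      ((0 : Fin (m + 2)) ∉ sing P ∧ (1 : Fin (m + 2)) ∉ sing P ∧ ends P = {1}) := by
  have C1 : ∀ i j l : Fin (m + 2), (i : ℕ) < l → (l : ℕ) < j → P i j → l ∉ sing P → P i l := by
    intro i j l h3 h4 h5 h6
    rcases h1 i j l h3 h4 h5 with h | h
    · exact h
    · exact absurd (mem_sing.2 h) h6
  have C2 : ∀ i j l : Fin (m + 2), ((tau m hm i : Fin (m + 2)) : ℕ) < (tau m hm l : Fin (m + 2)) →
      ((tau m hm l : Fin (m + 2)) : ℕ) < (tau m hm j : Fin (m + 2)) → P i j → l ∉ sing P →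
      P i l := by
    intro i j l h3 h4 h5 h6
    rcases h2 i j l h3 h4 h5 with h | h
    · exact h
    · exact absurd (mem_sing.2 h) h6
  have tv := tau_val m hm
  have va : ((aa m hm : Fin (m + 2)) : ℕ) = 2 := rfl
  have vb : ((bb m : Fin (m + 2)) : ℕ) = m + 1 := rfl
  have hlt : ∀ l : Fin (m + 2), (l : ℕ) < m + 2 := fun l => l.2
  by_cases ha : aa m hm ∈ sing P
  · by_cases hb : bb m ∈ sing P
    · exact Or.inl ⟨ha, hb⟩
    · right
      refine classify_aux P hN (bb m) (by omega) hb ?_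
      obtain ⟨x, hx, hxb⟩ := not_mem_sing.1 hb
      have hxb' : (x : ℕ) ≠ m + 1 := fun h => hxb (Fin.ext (by omega))
      have hxs : x ∉ sing P := not_sing_of_rel (P.symm' hx) hxb
      have hxa' : (x : ℕ) ≠ 2 := by
        intro h
        have : x = aa m hm := Fin.ext (by omega)
        subst this
        exact hxs ha
      intro l hl hls
      have hla' : (l : ℕ) ≠ 2 := by
        intro h
        have : l = aa m hm := Fin.ext (by omega)
        subst this
        exact hls ha
      by_cases hlb : (l : ℕ) = m + 1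
      · have : l = bb m := Fin.ext (by omega)
        subst this
        exact P.refl' _
      rcases lt_trichotomy (l : ℕ) x with h | h | h
      · refine C2 (bb m) x l ?_ ?_ hx hls
        · rw [tv, tv, vb]; split_ifs <;> omega
        · rw [tv, tv]; split_ifs <;> omega
      · have : l = x := Fin.ext h
        subst this
        exact hx
      · have := hlt l
        exact P.trans' hx (C1 x (bb m) l h (by omega) (P.symm' hx) hls)
  · right
    refine classify_aux P hN (aa m hm) (by omega) ha ?_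
    obtain ⟨x, hx, hxa⟩ := not_mem_sing.1 ha
    have hxa' : (x : ℕ) ≠ 2 := fun h => hxa (Fin.ext (by omega))
    -- middle elements
    have hmid : ∀ l : Fin (m + 2), 2 ≤ (l : ℕ) → (l : ℕ) ≠ m + 1 → l ∉ sing P →
        P (aa m hm) l := by
      intro l hl hlb hls
      by_cases hla : (l : ℕ) = 2
      · have : l = aa m hm := Fin.ext (by omega)
        subst this
        exact P.refl' _
      have := hlt l
      have := hlt x
      rcases lt_trichotomy (l : ℕ) x with h | h | h
      · exact C1 (aa m hm) x l (by omega) h hx hls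
      · have : l = x := Fin.ext h
        subst this
        exact hx
      · refine P.trans' hx (C2 x (aa m hm) l ?_ ?_ (P.symm' hx) hls)
        · rw [tv, tv]; split_ifs <;> omega
        · rw [tv, tv, va]; split_ifs <;> omega
    intro l hl hls
    by_cases hlb : (l : ℕ) = m + 1
    · have : l = bb m := Fin.ext (by omega)
      subst this
      obtain ⟨y, hy, hyb⟩ := not_mem_sing.1 hls
      have hyb' : (y : ℕ) ≠ m + 1 := fun h => hyb (Fin.ext (by omega))
      have hys : y ∉ sing P := not_sing_of_rel (P.symm' hy) hyb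
      by_cases hy2 : 2 ≤ (y : ℕ)
      · exact P.trans' (hmid y hy2 hyb' hys) (P.symm' hy)
      · have := C1 y (bb m) (aa m hm) (by omega) (by omega) (P.symm' hy) ha
        exact P.trans' (P.symm' this) (P.symm' hy)
    · exact hmid l hl hlb hls

/-- codes of type `g`: `{0,1}` is a class, all other non-singletons form one class. -/
theorem conv_tau_one {m : ℕ} (hm : 10 ≤ m) (S : Finset (Fin (m + 2))) :
    Conv (tau m hm) (R S {1}) := by
  have tv := tau_val m hm
  have v1 : ((1 : Fin (m + 2)) : ℕ) = 1 := by simp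
  intro i j l hil hlj hij
  by_cases hl : l ∈ S
  · right
    rintro x (rfl | ⟨h1, -, -⟩)
    · rfl
    · exact absurd hl h1
  · left
    rcases hij with rfl | ⟨h1, h2, h3⟩
    · exact absurd (hil.trans hlj) (lt_irrefl _)
    · refine Or.inr ⟨h1, hl, ?_⟩
      have h4 := h3 1 (by simp)
      intro e he
      rw [mem_singleton] at he
      subst he
      rw [Fin.lt_def, Fin.lt_def] at h4 ⊢
      rw [Fin.lt_def, tv, tv] at hil hlj
      rw [v1] at h4 ⊢
      have := l.2
      have := i.2
      have := j.2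
      split_ifs at hil hlj <;> omega

end Pool.Agent.R935.Phylo
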